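import Mathlib

/-!
# ZX/Defs: the entire completed L-function of a primitive Dirichlet character

`Xi χ s = M^(s/2) Λ(s, χ)` for `χ ≠ 1` and `s (s - 1) Λ(s)` for the trivial character mod `1`
(`Λ = completedRiemannZeta`); `par χ` is the parity `0` or `1`; `mu χ ρ` is the multiplicity.
-/

namespace Pool.Agent.ZX

open Complex DirichletCharacter

variable {M : ℕ} [NeZero M]

open Classical in
/-- The completed L-function, multiplied by `s (s - 1)` for the trivial character, and with the
conductor factor `M ^ (s / 2)`: an entire function. -/
noncomputable def Xi (χ : DirichletCharacter ℂ M) (s : ℂ) : ℂ :=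
  (M : ℂ) ^ (s / 2) *
    (if χ = 1 then s * (s - 1) * completedRiemannZeta₀ s + 1 else completedLFunction χ s)

open Classical in
/-- The parity of the character, as a complex number `0` or `1`. -/
noncomputable def par (χ : DirichletCharacter ℂ M) : ℂ := if χ.Even then 0 else 1

open Classical in
/-- The factor `s (s - 1)` for the trivial character, `1` otherwise. -/
noncomputable def pol (χ : DirichletCharacter ℂ M) (s : ℂ) : ℂ := if χ = 1 then s * (s - 1) else 1

/-- The multiplicity of `ρ` as a zero of `Xi χ`. -/
noncomputable def mu (χ : DirichletCharacter ℂ M) (ρ : ℂ) : ℕ := analyticOrderNatAt (Xi χ) ρ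

/-- The zeros of `Xi χ`. -/
def Zr (χ : DirichletCharacter ℂ M) : Set ℂ := {ρ | Xi χ ρ = 0}

end Pool.Agent.ZX
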