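import Pool.Agent.ZX.Defs

/-!
# ZX/Conj: complex conjugation

For `Re s > 1` (`LFunction_eq_LSeries`): `conj (L(s, χ)) = L(conj s, χ⁻¹)` termwise, since
`conj (χ n) = χ⁻¹ n` (`MulChar.star_apply'` or `inv_apply_eq_conj`) and `conj (n ^ (-s)) = n ^ (-conj s)`.
`conj (Gammaℝ s) = Gammaℝ (conj s)` (`Complex.Gamma_conj`, `Complex.cpow_conj`); `χ⁻¹` has the parity
of `χ`. Hence `completedLFunction χ⁻¹ (conj s) = conj (completedLFunction χ s)` for `Re s > 1`
(`LFunction_eq_completed_div_gammaFactor`, `Gammaℝ_ne_zero_of_re_pos`), and everywhere by the identity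
theorem: `s ↦ conj (completedLFunction χ⁻¹ (conj s))` is entire (`differentiableAt_conj_conj_iff` or
similar) and two entire functions which agree on an open set are equal
(`AnalyticOnNhd.eq_of_eventuallyEq`). `zeta0_conj` in the same way from `riemannZeta_conj`-type facts:
`completedRiemannZeta₀ s = completedRiemannZeta s + 1 / s + 1 / (1 - s)`, `zeta_eq_tsum_one_div_nat_cpow`.
-/

namespace Pool.Agent.ZX

open Complex DirichletCharacter ComplexConjugate

variable {M : ℕ} [NeZero M]

theorem natCast_cpow_conj (n : ℕ) (s : ℂ) : (n : ℂ) ^ (conj s) = conj ((n : ℂ) ^ s) := by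
  rw [cpow_conj _ _ (by rw [natCast_arg]; exact Real.pi_pos.ne), conj_natCast]

theorem pi_cpow_conj (s : ℂ) : (Real.pi : ℂ) ^ (conj s) = conj ((Real.pi : ℂ) ^ s) := by
  rw [cpow_conj _ _ (by rw [arg_ofReal_of_nonneg Real.pi_pos.le]; exact Real.pi_pos.ne), conj_ofReal]

theorem Gammaℝ_conj (s : ℂ) : Gammaℝ (conj s) = conj (Gammaℝ s) := by
  have h1 : -(conj s) / 2 = conj (-s / 2) := by rw [map_div₀, map_neg, conj_ofNat]
  have h2 : conj s / 2 = conj (s / 2) := by rw [map_div₀, conj_ofNat]
  rw [Gammaℝ_def, Gammaℝ_def, h1, h2, pi_cpow_conj, Gamma_conj, map_mul]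

theorem eq_of_re_gt_one {f g : ℂ → ℂ} (hf : Differentiable ℂ f) (hg : Differentiable ℂ g)
    (h : ∀ s : ℂ, 1 < s.re → f s = g s) : f = g := by
  have hf' : AnalyticOnNhd ℂ f Set.univ := fun z _ => hf.analyticAt z
  have hg' : AnalyticOnNhd ℂ g Set.univ := fun z _ => hg.analyticAt z
  refine hf'.eq_of_eventuallyEq hg' (z₀ := 2) ?_
  have : {s : ℂ | 1 < s.re} ∈ nhds (2 : ℂ) :=
    (isOpen_lt continuous_const continuous_re).mem_nhds (by simp)
  filter_upwards [this] with s hs using h s hs

theorem parity_inv_even {χ : DirichletCharacter ℂ M} : χ⁻¹.Even ↔ χ.Even := by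
  unfold DirichletCharacter.Even
  rw [← MulChar.star_apply' χ (-1)]
  constructor
  · intro h
    have := congrArg star h
    simpa using this
  · intro h
    rw [h]; simp

theorem gammaFactor_conj (χ : DirichletCharacter ℂ M) (s : ℂ) :
    gammaFactor χ⁻¹ (conj s) = conj (gammaFactor χ s) := by
  rcases χ.even_or_odd with hχ | hχ
  · rw [hχ.gammaFactor_def, (parity_inv_even.2 hχ).gammaFactor_def, Gammaℝ_conj]
  · have hχ' : ¬ χ⁻¹.Even := fun h => by
      have h1 := parity_inv_even.1 h
      rw [DirichletCharacter.Odd] at hχ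
      rw [DirichletCharacter.Even, hχ] at h1
      norm_num at h1
    have hχ'' : χ⁻¹.Odd := (χ⁻¹.even_or_odd).resolve_left hχ'
    rw [hχ.gammaFactor_def, hχ''.gammaFactor_def]
    have : conj s + 1 = conj (s + 1) := by simp
    rw [this, Gammaℝ_conj]

theorem gammaFactor_ne_zero (χ : DirichletCharacter ℂ M) {s : ℂ} (hs : 0 < s.re) :
    gammaFactor χ s ≠ 0 := by
  rcases χ.even_or_odd with hχ | hχ
  · rw [hχ.gammaFactor_def]
    exact Gammaℝ_ne_zero_of_re_pos hs
  · rw [hχ.gammaFactor_def]
    exact Gammaℝ_ne_zero_of_re_pos (by simp; linarith)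

theorem LSeries_term_conj (χ : DirichletCharacter ℂ M) (s : ℂ) (n : ℕ) :
    LSeries.term (fun n => χ⁻¹ n) (conj s) n = conj (LSeries.term (fun n => χ n) s n) := by
  rcases eq_or_ne n 0 with rfl | hn
  · simp
  · rw [LSeries.term_of_ne_zero hn, LSeries.term_of_ne_zero hn, natCast_cpow_conj, map_div₀,
      ← MulChar.star_apply' χ (n : ZMod M)]
    rfl

theorem LFunction_conj_of_one_lt_re (χ : DirichletCharacter ℂ M) {s : ℂ} (hs : 1 < s.re) :
    LFunction χ⁻¹ (conj s) = conj (LFunction χ s) := by
  rw [LFunction_eq_LSeries _ hs, LFunction_eq_LSeries _ (by simpa using hs), LSeries, LSeries,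
    Complex.conj_tsum]
  exact tsum_congr (LSeries_term_conj χ s)

theorem completed_conj {χ : DirichletCharacter ℂ M} (hχ : χ ≠ 1) (s : ℂ) :
    completedLFunction χ⁻¹ (conj s) = conj (completedLFunction χ s) := by
  have hχ' : χ⁻¹ ≠ 1 := by simpa using hχ
  have key : (fun s => conj (completedLFunction χ⁻¹ (conj s))) = completedLFunction χ := by
    refine eq_of_re_gt_one ?_ (differentiable_completedLFunction hχ) ?_
    · intro z
      have := (differentiable_completedLFunction hχ' (conj z)).conj_conj
      rw [conj_conj] at this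
      exact this
    · intro s hs
      have hs0 : s ≠ 0 := by rintro rfl; simp at hs; linarith
      have hs0' : conj s ≠ 0 := by simpa using hs0
      have h1 := LFunction_eq_completed_div_gammaFactor χ s (Or.inl hs0)
      have h2 := LFunction_eq_completed_div_gammaFactor χ⁻¹ (conj s) (Or.inl hs0')
      have g1 : gammaFactor χ s ≠ 0 := gammaFactor_ne_zero χ (by linarith)
      have g2 : gammaFactor χ⁻¹ (conj s) ≠ 0 := gammaFactor_ne_zero χ⁻¹ (by simp; linarith)
      have e1 : completedLFunction χ s = LFunction χ s * gammaFactor χ s := by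
        rw [h1]; field_simp
      have e2 : completedLFunction χ⁻¹ (conj s) =
          LFunction χ⁻¹ (conj s) * gammaFactor χ⁻¹ (conj s) := by
        rw [h2]; field_simp
      rw [e1, e2, LFunction_conj_of_one_lt_re χ hs, gammaFactor_conj, ← map_mul,
        RingHomCompTriple.comp_apply, RingHom.id_apply]
  have := congrFun key s
  rw [← this]
  simp

theorem zeta0_conj (s : ℂ) :
    completedRiemannZeta₀ (conj s) = conj (completedRiemannZeta₀ s) := by
  have key : (fun s => conj (completedRiemannZeta₀ (conj s))) = completedRiemannZeta₀ := by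
    refine eq_of_re_gt_one ?_ differentiable_completedZeta₀ ?_
    · intro z
      have := (differentiable_completedZeta₀ (conj z)).conj_conj
      rw [conj_conj] at this
      exact this
    · intro s hs
      have e1 : completedRiemannZeta₀ s = completedRiemannZeta s + 1 / s + 1 / (1 - s) := by
        rw [completedRiemannZeta_eq]; ring
      have e2 : completedRiemannZeta₀ (conj s) =
          completedRiemannZeta (conj s) + 1 / (conj s) + 1 / (1 - conj s) := by
        rw [completedRiemannZeta_eq]; ring
      have e3 : completedRiemannZeta (conj s) = conj (completedRiemannZeta s) := by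
        rw [completedZeta_eq_tsum_of_one_lt_re hs,
          completedZeta_eq_tsum_of_one_lt_re (by simpa using hs), map_mul, map_mul,
          Complex.conj_tsum, ← Gamma_conj, ← pi_cpow_conj]
        have h1 : conj (-s / 2) = -(conj s) / 2 := by rw [map_div₀, map_neg, conj_ofNat]
        have h2 : conj (s / 2) = conj s / 2 := by rw [map_div₀, conj_ofNat]
        rw [h1, h2]
        congr 1
        refine tsum_congr fun n => ?_
        rw [natCast_cpow_conj]
        simp
      rw [e1, e2, e3]
      simp
  have := congrFun key s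
  rw [← this]
  simp

end Pool.Agent.ZX
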