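import Pool.Agent.ZX.Defs

/-!
# ZX/LBound: polynomial bound for the L-function in `Re s ≥ 1/10`

Let `c = 1` if `χ = 1` (then `M = 1`), `c = 0` otherwise. The partial sums
`S t = ∑ k ∈ Icc 1 ⌊t⌋₊, χ k` satisfy `S t = c t + B t` with `|B t| ≤ M` for `t ≥ 1`
(`∑` over a period is `0` for `χ ≠ 1`; `⌊t⌋ = t - fract t` for `M = 1`).
`LSeries_eq_mul_integral` gives for `Re s > 1`
`(s - 1) L(s, χ) = c s + s (s - 1) H(s)`, `H(s) = ∫_1^∞ B(t) t^(-s-1) dt`.
`H` is analytic in `Re s > 0` (it is `mellin (indicator (Ioi 1) B) (-s)`, see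
`mellin_differentiableAt_of_isBigO_rpow`: the function is `O(1)` at infinity and `0` near `0`), with
`|H(s)| ≤ M / Re s`. Both sides are analytic in `Re s > 0`, so the formula
holds there away from `s = 1` by the identity theorem.
-/

namespace Pool.Agent.ZX

open Complex DirichletCharacter Set MeasureTheory Filter Topology Asymptotics

variable {M : ℕ} [NeZero M] {χ : DirichletCharacter ℂ M}

/-! ### Partial sums -/

private lemma sum_period (hχ : χ ≠ 1) : ∑ k ∈ Finset.range M, χ (k : ZMod M) = 0 := by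
  rw [← MulChar.sum_eq_zero_of_ne_one hχ]
  refine Finset.sum_bij (fun k _ => (k : ZMod M)) (fun _ _ => Finset.mem_univ _) ?_ ?_
    (fun _ _ => rfl)
  · intro a ha b hb hab
    rw [Finset.mem_range] at ha hb
    rw [ZMod.natCast_eq_natCast_iff'] at hab
    rwa [Nat.mod_eq_of_lt ha, Nat.mod_eq_of_lt hb] at hab
  · intro b _
    exact ⟨b.val, Finset.mem_range.2 (ZMod.val_lt b), ZMod.natCast_zmod_val b⟩

private lemma sum_block (hχ : χ ≠ 1) (q : ℕ) :
    ∑ k ∈ Finset.range (q * M), χ (k : ZMod M) = 0 := by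
  induction q with
  | zero => simp
  | succ q ih =>
    rw [add_mul, one_mul, Finset.sum_range_add, ih, zero_add]
    rw [← sum_period hχ]
    apply Finset.sum_congr rfl
    intro k _
    congr 1
    push_cast
    simp

private lemma norm_sum_range_le (hχ : χ ≠ 1) (n : ℕ) :
    ‖∑ k ∈ Finset.range n, χ (k : ZMod M)‖ ≤ M := by
  have h1 : n = (n / M) * M + n % M := (Nat.div_add_mod' n M).symm
  rw [h1, Finset.sum_range_add, sum_block hχ, zero_add]
  refine (norm_sum_le _ _).trans ?_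
  calc ∑ k ∈ Finset.range (n % M), ‖χ (((n / M) * M + k : ℕ) : ZMod M)‖
      ≤ ∑ k ∈ Finset.range (n % M), (1 : ℝ) := Finset.sum_le_sum fun k _ => χ.norm_le_one _
    _ = (n % M : ℕ) := by simp
    _ ≤ M := by exact_mod_cast (Nat.mod_lt n (NeZero.pos M)).le

private lemma norm_sum_Icc_le (hχ : χ ≠ 1) (n : ℕ) :
    ‖∑ k ∈ Finset.Icc 1 n, χ (k : ZMod M)‖ ≤ M := by
  have hM : M ≠ 1 := fun h => hχ (level_one' χ h)
  have h0 : χ (0 : ZMod M) = 0 := χ.map_zero' hM
  have h1 : ∀ n : ℕ, ∑ k ∈ Finset.Icc 1 n, χ (k : ZMod M) =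
      ∑ k ∈ Finset.range (n + 1), χ (k : ZMod M) := by
    intro n
    induction n with
    | zero => simp [h0]
    | succ n ih => rw [Finset.sum_Icc_succ_top (by omega), ih, Finset.sum_range_succ _ (n + 1)]
  rw [h1]
  exact norm_sum_range_le hχ _

open Classical in
/-- the residue -/
private noncomputable def cc (χ : DirichletCharacter ℂ M) : ℂ := if χ = 1 then 1 else 0

/-- the bounded part of the partial sums -/
private noncomputable def BB (χ : DirichletCharacter ℂ M) (t : ℝ) : ℂ :=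
  (∑ k ∈ Finset.Icc 1 ⌊t⌋₊, χ (k : ZMod M)) - cc χ * t

private lemma norm_BB_le (hχ : χ.IsPrimitive) {t : ℝ} (ht : 0 ≤ t) : ‖BB χ t‖ ≤ M := by
  unfold BB cc
  by_cases h : χ = 1
  · have hM : M = 1 := by
      rw [isPrimitive_def, h, conductor_one] at hχ
      exact hχ.symm
    subst hM
    rw [if_pos h]
    have e : ∑ k ∈ Finset.Icc 1 ⌊t⌋₊, χ (k : ZMod 1) = (⌊t⌋₊ : ℂ) := by
      have : ∀ k ∈ Finset.Icc 1 ⌊t⌋₊, χ (k : ZMod 1) = 1 := by
        intro k _
        rw [show (k : ZMod 1) = 1 from Subsingleton.elim _ _, map_one]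
      rw [Finset.sum_congr rfl this]
      simp
    rw [e, one_mul]
    have h1 : ((⌊t⌋₊ : ℂ) - (t : ℂ)) = (((⌊t⌋₊ : ℝ) - t : ℝ) : ℂ) := by push_cast; ring
    rw [h1, Complex.norm_real, Real.norm_eq_abs, abs_le]
    have h2 := Nat.floor_le ht
    have h3 := Nat.lt_floor_add_one t
    constructor
    · push_cast; linarith
    · push_cast; linarith
  · rw [if_neg h, zero_mul, sub_zero]
    exact norm_sum_Icc_le h _

private lemma measurable_BB (χ : DirichletCharacter ℂ M) : Measurable (BB χ) := by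
  unfold BB
  apply Measurable.sub
  · exact (measurable_from_nat (f := fun n : ℕ => ∑ k ∈ Finset.Icc 1 n, χ (k : ZMod M))).comp
      Nat.measurable_floor
  · exact (Complex.measurable_ofReal).const_mul _

/-- the integral `H` -/
private noncomputable def HH (χ : DirichletCharacter ℂ M) (s : ℂ) : ℂ :=
  ∫ t in Ioi (1 : ℝ), BB χ t * (t : ℂ) ^ (-(s + 1))

private lemma HH_eq_mellin (χ : DirichletCharacter ℂ M) (s : ℂ) :
    HH χ s = mellin (indicator (Ioi (1 : ℝ)) (BB χ)) (-s) := by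
  unfold HH mellin
  have h1 : ∀ t : ℝ, (t : ℂ) ^ (-s - 1) • indicator (Ioi (1 : ℝ)) (BB χ) t =
      indicator (Ioi (1 : ℝ)) (fun t => BB χ t * (t : ℂ) ^ (-(s + 1))) t := by
    intro t
    by_cases ht : t ∈ Ioi (1 : ℝ)
    · rw [indicator_of_mem ht, indicator_of_mem ht, smul_eq_mul, mul_comm]
      congr 2
      ring
    · rw [indicator_of_notMem ht, indicator_of_notMem ht, smul_zero]
  simp_rw [h1]
  rw [setIntegral_indicator measurableSet_Ioi]
  congr 2
  ext t
  simp only [mem_inter_iff, mem_Ioi]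
  constructor
  · intro h; exact ⟨by linarith, h⟩
  · exact fun h => h.2

private lemma norm_ind_le (hχ : χ.IsPrimitive) (t : ℝ) :
    ‖indicator (Ioi (1 : ℝ)) (BB χ) t‖ ≤ M := by
  by_cases ht : t ∈ Ioi (1 : ℝ)
  · rw [indicator_of_mem ht]
    exact norm_BB_le hχ (by have := mem_Ioi.1 ht; linarith)
  · rw [indicator_of_notMem ht, norm_zero]
    positivity

private lemma differentiableAt_HH (hχ : χ.IsPrimitive) {s : ℂ} (hs : 0 < s.re) :
    DifferentiableAt ℂ (HH χ) s := by
  have h1 : HH χ = fun s => mellin (indicator (Ioi (1 : ℝ)) (BB χ)) (-s) :=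
    funext (HH_eq_mellin χ)
  rw [h1]
  have h2 : DifferentiableAt ℂ (mellin (indicator (Ioi (1 : ℝ)) (BB χ))) (-s) := by
    apply mellin_differentiableAt_of_isBigO_rpow (a := 0) (b := (-s).re - 1)
    · have hm : Measurable (indicator (Ioi (1 : ℝ)) (BB χ)) :=
        (measurable_BB χ).indicator measurableSet_Ioi
      have : LocallyIntegrable (indicator (Ioi (1 : ℝ)) (BB χ)) := by
        rw [locallyIntegrable_iff]
        intro k hk
        refine Measure.integrableOn_of_bounded (M := M) hk.measure_lt_top.ne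
          hm.aestronglyMeasurable ?_
        exact Eventually.of_forall fun t => norm_ind_le hχ t
      exact this.locallyIntegrableOn _
    · apply IsBigO.of_bound (M : ℝ)
      filter_upwards with t
      rw [neg_zero, Real.rpow_zero, norm_one, mul_one]
      exact norm_ind_le hχ t
    · rw [neg_re]; linarith
    · apply IsBigO.of_bound 0
      have : ∀ᶠ t in 𝓝[>] (0 : ℝ), t < 1 :=
        nhdsWithin_le_nhds (gt_mem_nhds one_pos)
      filter_upwards [this] with t ht
      rw [indicator_of_notMem (by simp [ht.le]), norm_zero, zero_mul]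
    · linarith
  exact h2.comp s (differentiable_neg s)

private lemma norm_HH_le (hχ : χ.IsPrimitive) {s : ℂ} (hs : 0 < s.re) :
    ‖HH χ s‖ ≤ M / s.re := by
  unfold HH
  have h1 : ∀ t ∈ Ioi (1 : ℝ), ‖BB χ t * (t : ℂ) ^ (-(s + 1))‖ ≤ M * t ^ (-s.re - 1) := by
    intro t ht
    have ht0 : 0 < t := by have := mem_Ioi.1 ht; linarith
    rw [norm_mul, Complex.norm_cpow_eq_rpow_re_of_pos ht0]
    have : (-(s + 1)).re = -s.re - 1 := by simp; ring
    rw [this]
    exact mul_le_mul_of_nonneg_right (norm_BB_le hχ ht0.le) (Real.rpow_nonneg ht0.le _)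
  have h2 : IntegrableOn (fun t : ℝ => (M : ℝ) * t ^ (-s.re - 1)) (Ioi 1) :=
    (integrableOn_Ioi_rpow_of_lt (by linarith) one_pos).const_mul _
  refine (norm_integral_le_of_norm_le h2 ((ae_restrict_mem measurableSet_Ioi).mono h1)).trans ?_
  rw [integral_const_mul, integral_Ioi_rpow_of_lt (by linarith) one_pos]
  simp only [Real.one_rpow]
  apply le_of_eq
  have hne : s.re ≠ 0 := hs.ne'
  rw [show -s.re - 1 + 1 = -s.re by ring]
  field_simp

private lemma formula_right (hχ : χ.IsPrimitive) {s : ℂ} (hs : 1 < s.re) :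
    (s - 1) * LFunction χ s = s * (cc χ + (s - 1) * HH χ s) := by
  have hs0 : 0 < s.re := by linarith
  have hs1 : s - 1 ≠ 0 := by
    intro h
    have : s = 1 := by linear_combination h
    rw [this] at hs
    simp at hs
  rw [LFunction_eq_LSeries χ hs]
  have hsum : ∀ n : ℕ, ∑ k ∈ Finset.Icc 1 n, χ (k : ZMod M) = cc χ * (n : ℂ) + BB χ n := by
    intro n
    unfold BB
    rw [Nat.floor_natCast]
    push_cast
    ring
  have hO : (fun n : ℕ => ∑ k ∈ Finset.Icc 1 n, χ (k : ZMod M)) =O[atTop]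
      fun n : ℕ => (n : ℝ) ^ (1 : ℝ) := by
    apply IsBigO.of_bound (‖cc χ‖ + M)
    filter_upwards [eventually_ge_atTop 1] with n hn
    have hn1 : (1 : ℝ) ≤ n := by exact_mod_cast hn
    rw [hsum n, Real.rpow_one, Real.norm_of_nonneg (by positivity)]
    calc ‖cc χ * (n : ℂ) + BB χ n‖ ≤ ‖cc χ * (n : ℂ)‖ + ‖BB χ n‖ := norm_add_le _ _
      _ ≤ ‖cc χ‖ * n + M := by
        rw [norm_mul, Complex.norm_natCast]
        exact add_le_add le_rfl (norm_BB_le hχ (by positivity))
      _ ≤ (‖cc χ‖ + M) * n := by nlinarith [norm_nonneg (cc χ), (Nat.cast_nonneg M : (0 : ℝ) ≤ M)]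
  rw [LSeries_eq_mul_integral (fun n => χ (n : ZMod M)) zero_le_one hs
    (LSeriesSummable_of_one_lt_re χ hs) hO]
  have hint1 : IntegrableOn (fun t : ℝ => cc χ * (t : ℂ) ^ (-s)) (Ioi 1) := by
    apply Integrable.const_mul
    exact integrableOn_Ioi_cpow_of_lt (by rw [neg_re]; linarith) one_pos
  have hint2 : IntegrableOn (fun t : ℝ => BB χ t * (t : ℂ) ^ (-(s + 1))) (Ioi 1) := by
    have h2 : IntegrableOn (fun t : ℝ => (M : ℝ) * t ^ (-s.re - 1)) (Ioi 1) :=
      (integrableOn_Ioi_rpow_of_lt (by linarith) one_pos).const_mul _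
    refine Integrable.mono' h2 ?_ ?_
    · apply Measurable.aestronglyMeasurable
      apply (measurable_BB χ).mul
      fun_prop
    · refine (ae_restrict_mem measurableSet_Ioi).mono fun t ht => ?_
      have ht0 : 0 < t := by have := mem_Ioi.1 ht; linarith
      rw [norm_mul, Complex.norm_cpow_eq_rpow_re_of_pos ht0]
      have : (-(s + 1)).re = -s.re - 1 := by simp; ring
      rw [this]
      exact mul_le_mul_of_nonneg_right (norm_BB_le hχ ht0.le) (Real.rpow_nonneg ht0.le _)
  have hsplit : ∫ t in Ioi (1 : ℝ), (∑ k ∈ Finset.Icc 1 ⌊t⌋₊, χ (k : ZMod M)) * (t : ℂ) ^ (-(s + 1)) =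
      ∫ t in Ioi (1 : ℝ), (cc χ * (t : ℂ) ^ (-s) + BB χ t * (t : ℂ) ^ (-(s + 1))) := by
    apply setIntegral_congr_fun measurableSet_Ioi
    intro t ht
    have ht0 : (t : ℂ) ≠ 0 := by
      have := mem_Ioi.1 ht
      exact_mod_cast (by linarith : t ≠ 0)
    have e1 : (t : ℂ) ^ (-s) = t * (t : ℂ) ^ (-(s + 1)) := by
      rw [show -s = 1 + (-(s + 1)) by ring, cpow_add _ _ ht0, cpow_one]
    simp only
    rw [e1]
    unfold BB
    ring
  rw [hsplit, integral_add hint1 hint2, integral_const_mul,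
    integral_Ioi_cpow_of_lt (by rw [neg_re]; linarith) one_pos]
  unfold HH
  have e3 : -s + 1 ≠ 0 := by
    intro h
    apply hs1
    linear_combination -h
  rw [ofReal_one, one_cpow]
  field_simp
  ring

open Classical in
/-- `(s - 1) L(s, χ)` as an entire function -/
private noncomputable def FF (χ : DirichletCharacter ℂ M) : ℂ → ℂ :=
  if χ = 1 then LFunctionTrivChar₁ M else fun s => (s - 1) * LFunction χ s

private lemma FF_eq (χ : DirichletCharacter ℂ M) {s : ℂ} (hs : s ≠ 1) :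
    FF χ s = (s - 1) * LFunction χ s := by
  unfold FF
  by_cases h : χ = 1
  · rw [if_pos h, h]
    exact Function.update_of_ne hs _ _
  · rw [if_neg h]

private lemma differentiable_FF (χ : DirichletCharacter ℂ M) : Differentiable ℂ (FF χ) := by
  unfold FF
  by_cases h : χ = 1
  · rw [if_pos h]
    exact differentiable_LFunctionTrivChar₁ M
  · rw [if_neg h]
    exact (differentiable_id.sub_const 1).mul (differentiable_LFunction h)

private lemma formula (hχ : χ.IsPrimitive) {s : ℂ} (hs : 0 < s.re) :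
    FF χ s = s * (cc χ + (s - 1) * HH χ s) := by
  have hU : IsOpen {s : ℂ | 0 < s.re} := isOpen_lt continuous_const continuous_re
  have hf : AnalyticOnNhd ℂ (FF χ) {s : ℂ | 0 < s.re} :=
    (differentiable_FF χ).differentiableOn.analyticOnNhd hU
  have hg : AnalyticOnNhd ℂ (fun s => s * (cc χ + (s - 1) * HH χ s)) {s : ℂ | 0 < s.re} := by
    apply DifferentiableOn.analyticOnNhd _ hU
    intro s hs
    have hd : DifferentiableAt ℂ (HH χ) s := differentiableAt_HH hχ hs
    exact (differentiableAt_id.mul ((differentiableAt_const _).add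
      ((differentiableAt_id.sub_const 1).mul hd))).differentiableWithinAt
  have hpre : IsPreconnected {s : ℂ | 0 < s.re} := (convex_halfSpace_re_gt 0).isPreconnected
  have h2 : (2 : ℂ) ∈ {s : ℂ | 0 < s.re} := by simp
  refine hf.eqOn_of_preconnected_of_eventuallyEq hg hpre h2 ?_ hs
  have : {s : ℂ | 1 < s.re} ∈ 𝓝 (2 : ℂ) :=
    (isOpen_lt continuous_const continuous_re).mem_nhds (by simp)
  filter_upwards [this] with z hz
  have hz1 : z ≠ 1 := by
    intro h
    have : 1 < z.re := hz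
    rw [h] at this
    simp at this
  rw [FF_eq χ hz1, formula_right hχ hz]

theorem L_bound (hχ : χ.IsPrimitive) : ∃ C : ℝ, 0 < C ∧ ∀ s : ℂ, 1 / 10 ≤ s.re →
    ‖(s - 1) * LFunction χ s‖ ≤ C * (1 + ‖s‖) ^ 2 := by
  have hM : (0 : ℝ) ≤ M := Nat.cast_nonneg M
  refine ⟨10 * M + 1, by positivity, fun s hs => ?_⟩
  have hs0 : 0 < s.re := by linarith
  have hn := norm_nonneg s
  by_cases h1 : s = 1
  · rw [h1, sub_self, zero_mul, norm_zero]
    positivity
  rw [← FF_eq χ h1, formula hχ hs0]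
  have hc : ‖cc χ‖ ≤ 1 := by
    unfold cc
    split_ifs <;> simp
  have hH : ‖HH χ s‖ ≤ 10 * M := by
    refine (norm_HH_le hχ hs0).trans ?_
    rw [div_le_iff₀ hs0]
    nlinarith
  have h2 : ‖s - 1‖ ≤ ‖s‖ + 1 := by
    refine (norm_sub_le _ _).trans ?_
    simp
  calc ‖s * (cc χ + (s - 1) * HH χ s)‖
      ≤ ‖s‖ * (‖cc χ‖ + ‖s - 1‖ * ‖HH χ s‖) := by
        rw [norm_mul]
        refine mul_le_mul_of_nonneg_left ?_ hn
        refine (norm_add_le _ _).trans ?_
        rw [norm_mul]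
    _ ≤ ‖s‖ * (1 + (‖s‖ + 1) * (10 * M)) := by
        gcongr
    _ ≤ (10 * M + 1) * (1 + ‖s‖) ^ 2 := by nlinarith [mul_nonneg hM hn, mul_nonneg hM (mul_nonneg hn hn)]

/-- lower bound on the line `Re s = 2` -/
theorem L_lower (χ : DirichletCharacter ℂ M) {s : ℂ} (hs : s.re = 2) :
    1 / 4 ≤ ‖LFunction χ s‖ := by
  have hs1 : 1 < s.re := by rw [hs]; norm_num
  rw [LFunction_eq_LSeries χ hs1]
  have hsum : Summable (LSeries.term (fun n => χ (n : ZMod M)) s) :=
    LSeriesSummable_of_one_lt_re χ hs1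
  have hnorm : ∀ n : ℕ, ‖LSeries.term (fun n => χ (n : ZMod M)) s n‖ ≤ 1 / (n : ℝ) ^ 2 := by
    intro n
    rcases eq_or_ne n 0 with rfl | hn
    · simp
    · rw [LSeries.norm_term_eq, if_neg hn, hs]
      have : (0 : ℝ) < (n : ℝ) ^ 2 := by positivity
      rw [show ((n : ℝ) ^ (2 : ℝ)) = (n : ℝ) ^ 2 by exact_mod_cast Real.rpow_natCast (n : ℝ) 2]
      gcongr
      exact χ.norm_le_one _
  have hz := hasSum_zeta_two
  have hz2 : Summable (fun n : ℕ => 1 / ((n : ℝ)) ^ 2) := hz.summable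
  have e1 : LSeries (fun n => χ (n : ZMod M)) s = 1 +
      ∑' n : ℕ, LSeries.term (fun n => χ (n : ZMod M)) s (n + 2) := by
    unfold LSeries
    rw [← hsum.sum_add_tsum_nat_add 2, Finset.sum_range_succ, Finset.sum_range_one]
    simp
  have e2 : ∑' n : ℕ, 1 / (((n + 2 : ℕ) : ℝ)) ^ 2 = Real.pi ^ 2 / 6 - 1 := by
    have := hz2.sum_add_tsum_nat_add 2
    rw [hz.tsum_eq, Finset.sum_range_succ, Finset.sum_range_one] at this
    simp only [Nat.cast_zero, Nat.cast_one] at this
    linarith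
  have e3 : ‖∑' n : ℕ, LSeries.term (fun n => χ (n : ZMod M)) s (n + 2)‖ ≤ Real.pi ^ 2 / 6 - 1 := by
    rw [← e2]
    have hs2 : Summable (fun n : ℕ => 1 / (((n + 2 : ℕ) : ℝ)) ^ 2) :=
      (summable_nat_add_iff 2).2 hz2
    exact tsum_of_norm_bounded hs2.hasSum (fun n => hnorm (n + 2))
  have hpi := Real.pi_lt_d2
  have hpi0 := Real.pi_pos
  rw [e1]
  have h4 : ‖(1 : ℂ)‖ - ‖∑' n : ℕ, LSeries.term (fun n => χ (n : ZMod M)) s (n + 2)‖ ≤
      ‖1 + ∑' n : ℕ, LSeries.term (fun n => χ (n : ZMod M)) s (n + 2)‖ := by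
    have := norm_sub_norm_le (1 : ℂ) (-∑' n : ℕ, LSeries.term (fun n => χ (n : ZMod M)) s (n + 2))
    rwa [norm_neg, sub_neg_eq_add] at this
  rw [norm_one] at h4
  nlinarith

end Pool.Agent.ZX
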